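import Mathlib
import Pool.Agent.H892.KT.Stm

/-!
# KT UNIQ (helper336, for helper892): the identity theorem for polynomials in two variables
-/

set_option autoImplicit false

open Filter Topology Set

namespace Pool.Agent.H336.KT

open Pool.Agent.H892.KT

theorem ev_zero_of_nhds (P : MvPolynomial (Fin 2) ℂ) (p : ℂ × ℂ)
    (h : ∀ᶠ q in 𝓝 p, ev P q = 0) : P = 0 := by
  obtain ⟨p1, p2⟩ := p
  rw [nhds_prod_eq] at h
  obtain ⟨s, hs, t, ht, hst⟩ := Filter.mem_prod_iff.1 h
  have hs' : s.Infinite := infinite_of_mem_nhds p1 hs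
  have ht' : t.Infinite := infinite_of_mem_nhds p2 ht
  refine MvPolynomial.funext_set (fun i : Fin 2 => if i = 0 then s else t) ?_ ?_
  · intro i
    by_cases hi : i = 0
    · simp only [hi, if_true]
      exact hs'
    · simp only [hi, if_false]
      exact ht'
  · intro x hx
    have h0 := hx 0 (Set.mem_univ _)
    have h1 := hx 1 (Set.mem_univ _)
    simp only [if_true] at h0
    have h10 : ¬ ((1 : Fin 2) = 0) := by decide
    simp only [h10, if_false] at h1
    have h2 : ev P (x 0, x 1) = 0 := hst (Set.mk_mem_prod h0 h1)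
    have h3 : x = ![x 0, x 1] := by
      funext i
      fin_cases i
      · rfl
      · rfl
    rw [map_zero, h3]
    exact h2

theorem ev_continuous (P : MvPolynomial (Fin 2) ℂ) : Continuous (ev P) := by
  have h : Continuous (fun q : ℂ × ℂ => (![q.1, q.2] : Fin 2 → ℂ)) := by
    refine continuous_pi fun i => ?_
    fin_cases i
    · exact continuous_fst
    · exact continuous_snd
  exact (MvPolynomial.continuous_eval P).comp h

theorem t_UNIQ : S_UNIQ := by
  refine ⟨ev_zero_of_nhds, ev_continuous, fun P hP => ?_⟩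
  rw [dense_iff_inter_open]
  intro U hU hne
  obtain ⟨p, hp⟩ := hne
  by_contra hcon
  apply hP
  refine ev_zero_of_nhds P p ?_
  filter_upwards [hU.mem_nhds hp] with q hq
  by_contra hq0
  exact hcon ⟨q, hq, hq0⟩

end Pool.Agent.H336.KT
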